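import Pool.Agent.Helper90.MT.Common
import Pool.Agent.Helper1.MT.DefsU

/-!
# Project MT, module MU-S: the majorant with one additional colour
-/

set_option autoImplicit false
set_option linter.unusedSectionVars false

open Finset

namespace Pool.Agent.Helper12.MT

open Pool.Agent.Helper1.MT
open Pool.Agent.Helper90.MT (ws_nonneg mem_cls mem_supp ws_supp prod_one_add_le)

section Comb

variable {ι κ : Type} [Fintype ι] [Fintype κ] [DecidableEq ι] [DecidableEq κ]

/-- The colouring with star set `S` and with the colours of `b` elsewhere. -/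
def smk (b : ι → Option κ) (S : Finset ι) : ι → Option (Option κ) :=
  fun p => if p ∈ S then some none else (b p).map some

/-- The part with the old colours. -/
def spart (c : ι → Option (Option κ)) : ι → Option κ := fun p => (c p).bind id

/-- The star set. -/
def sstar (c : ι → Option (Option κ)) : Finset ι := univ.filter (fun p => c p = some none)

theorem spart_smk {b : ι → Option κ} {S : Finset ι} (h : Disjoint S (supp b)) :
    spart (smk b S) = b := by
  funext p
  unfold spart smk
  by_cases hp : p ∈ S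
  · rw [if_pos hp]
    have h1 : p ∉ supp b := Finset.disjoint_left.1 h hp
    rw [mem_supp, not_not] at h1
    rw [h1]
    rfl
  · rw [if_neg hp]
    cases b p <;> rfl

theorem sstar_smk (b : ι → Option κ) (S : Finset ι) : sstar (smk b S) = S := by
  ext p
  simp only [sstar, smk, Finset.mem_filter, Finset.mem_univ, true_and]
  by_cases hp : p ∈ S
  · simp [hp]
  · rw [if_neg hp]
    cases b p <;> simp [hp]

theorem smk_self (c : ι → Option (Option κ)) : smk (spart c) (sstar c) = c := by
  funext p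
  simp only [smk, spart, sstar, Finset.mem_filter, Finset.mem_univ, true_and]
  rcases hc : c p with _ | _ | i
  · simp
  · simp
  · simp

theorem disj_self (c : ι → Option (Option κ)) : Disjoint (sstar c) (supp (spart c)) := by
  rw [Finset.disjoint_left]
  intro p hp
  rw [mem_supp, not_not]
  have h : c p = some none := by simpa [sstar] using hp
  unfold spart
  rw [h]
  rfl

theorem supp_smk (b : ι → Option κ) (S : Finset ι) : supp (smk b S) = S ∪ supp b := by
  ext p
  rw [Finset.mem_union, mem_supp, mem_supp]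
  unfold smk
  by_cases hp : p ∈ S
  · simp [hp]
  · simp [hp]

/-- Sums over the colourings with the additional colour. -/
theorem sum_star (F : (ι → Option (Option κ)) → ℝ) :
    ∑ c, F c = ∑ b : ι → Option κ, ∑ S ∈ univ.filter (fun S => Disjoint S (supp b)),
      F (smk b S) := by
  rw [Finset.sum_sigma']
  refine Finset.sum_bij' (fun c _ => ⟨spart c, sstar c⟩) (fun z _ => smk z.1 z.2) ?_ ?_ ?_ ?_ ?_
  · intro c _
    simp only [Finset.mem_sigma, Finset.mem_univ, Finset.mem_filter, true_and]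
    exact disj_self c
  · intro z _
    exact Finset.mem_univ _
  · intro c _
    exact smk_self c
  · rintro ⟨b, S⟩ hz
    simp only [Finset.mem_sigma, Finset.mem_univ, Finset.mem_filter, true_and] at hz
    have h1 := spart_smk hz
    have h2 := sstar_smk b S
    simp only [h1, h2]
  · intro c _
    rw [smk_self]

/-- The local factors. -/
theorem inv_star (w : ℝ) (a b : Option κ) :
    inv w (a.map some) (b.map some) = inv w a b := by
  rcases a with _ | i <;> rcases b with _ | j
  · rfl
  · rfl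
  · rfl
  · simp [inv]

theorem prod_inv (w : ι → ℝ) (c b : ι → Option κ) {S : Finset ι} (h : Disjoint S (supp b)) :
    ∏ p, inv (w p) ((c p).map some) (smk b S p) =
      (∏ p ∈ S, (- w p)) * ∏ p, inv (w p) (c p) (b p) := by
  rw [← Finset.prod_mul_prod_compl S (fun p => inv (w p) ((c p).map some) (smk b S p)),
    ← Finset.prod_mul_prod_compl S (fun p => inv (w p) (c p) (b p)), ← mul_assoc,
    ← Finset.prod_mul_distrib]
  congr 1
  · refine Finset.prod_congr rfl fun p hp => ?_
    have h1 : p ∉ supp b := Finset.disjoint_left.1 h hp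
    rw [mem_supp, not_not] at h1
    unfold smk
    rw [if_pos hp, h1]
    rcases c p with _ | i
    · simp [inv]
    · simp [inv]
  · refine Finset.prod_congr rfl fun p hp => ?_
    rw [Finset.mem_compl] at hp
    unfold smk
    rw [if_neg hp]
    exact inv_star _ _ _

end Comb

section Sums

variable {ι κ : Type} [Fintype ι] [Fintype κ] [DecidableEq ι] [DecidableEq κ]

/-- The allowed star sets. -/
noncomputable def SS (t : ι → ℝ) (bad : Finset ι) (b : ι → Option κ) : Finset (Finset ι) :=
  (univ.filter (fun S => Disjoint S (supp b))).filter (fun S => T t S ≤ 1 ∧ Disjoint S bad)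

/-- The normalising factor. -/
noncomputable def VV (w t : ι → ℝ) (bad : Finset ι) (b : ι → Option κ) : ℝ :=
  ∑ S ∈ SS t bad b, ws w S

theorem one_le_VV {w t : ι → ℝ} (hw : ∀ p, 0 ≤ w p) (bad : Finset ι) (b : ι → Option κ) :
    1 ≤ VV w t bad b := by
  have h1 : (∅ : Finset ι) ∈ SS t bad b := by
    simp [SS, T]
  have h2 : ws w (∅ : Finset ι) = 1 := by simp [ws]
  calc (1 : ℝ) = ws w (∅ : Finset ι) := h2.symm
    _ ≤ _ := Finset.single_le_sum (f := fun S => ws w S) (fun S _ => ws_nonneg hw S) h1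

/-- The sum over the pairs. -/
theorem pair_le {A : Finset (Finset ι)} {B C : Finset (Finset ι)} (e : Finset ι → Finset ι × Finset ι)
    (he : ∀ S ∈ A, (e S).1 ∈ B ∧ (e S).2 ∈ C) (hi : ∀ S ∈ A, (e S).1 ∪ (e S).2 = S)
    {f g : Finset ι → ℝ} (hf : ∀ S, 0 ≤ f S) (hg : ∀ S, 0 ≤ g S) :
    ∑ S ∈ A, f (e S).1 * g (e S).2 ≤ (∑ S ∈ B, f S) * ∑ S ∈ C, g S := by
  rw [Finset.sum_mul_sum, ← Finset.sum_product']
  have hinj : Set.InjOn e (A : Set (Finset ι)) := by
    intro S hS S' hS' h
    rw [← hi S hS, ← hi S' hS', h]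
  rw [← Finset.sum_image (f := fun z : Finset ι × Finset ι => f z.1 * g z.2) hinj]
  refine Finset.sum_le_sum_of_subset_of_nonneg ?_ fun z _ _ => mul_nonneg (hf _) (hg _)
  intro z hz
  obtain ⟨S, hS, rfl⟩ := Finset.mem_image.1 hz
  exact Finset.mem_product.2 (he S hS)

theorem V0_le {w t : ι → ℝ} (hw : ∀ p, 0 ≤ w p) (ht : ∀ p, 0 ≤ t p) (bad : Finset ι)
    (b : ι → Option κ) :
    V0 w t ≤ (∏ p ∈ supp b, (1 + w p)) * (∏ p ∈ bad, (1 + w p)) * VV w t bad b := by
  have h1 : V0 w t ≤ (∏ p ∈ supp b ∪ bad, (1 + w p)) * VV w t bad b := by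
    unfold V0 VV
    rw [Finset.prod_one_add]
    have h2 : ∀ S ∈ (univ : Finset (Finset ι)).filter (fun S => T t S ≤ 1), ws w S =
        ws w (S ∩ (supp b ∪ bad)) * ws w (S \ (supp b ∪ bad)) := by
      intro S _
      unfold ws
      rw [Finset.prod_inter_mul_prod_sdiff]
    rw [Finset.sum_congr rfl h2]
    refine pair_le (B := (supp b ∪ bad).powerset) (C := SS t bad b)
      (fun S => (S ∩ (supp b ∪ bad), S \ (supp b ∪ bad))) ?_ ?_ (ws_nonneg hw) (ws_nonneg hw)
    · intro S hS
      refine ⟨Finset.mem_powerset.2 Finset.inter_subset_right, ?_⟩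
      have h3 : Disjoint (S \ (supp b ∪ bad)) (supp b ∪ bad) := Finset.sdiff_disjoint
      rw [Finset.disjoint_union_right] at h3
      simp only [SS, Finset.mem_filter, Finset.mem_univ, true_and] at hS ⊢
      refine ⟨h3.1, ?_, h3.2⟩
      refine le_trans ?_ hS
      exact Finset.sum_le_sum_of_subset_of_nonneg Finset.sdiff_subset fun p _ _ => ht p
    · intro S _
      rw [Finset.union_comm]
      exact Finset.sdiff_union_inter S _
  refine h1.trans (mul_le_mul_of_nonneg_right ?_ (le_trans zero_le_one (one_le_VV hw bad b)))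
  rw [← Finset.prod_union_inter (s₁ := supp b) (s₂ := bad)]
  have h4 : 1 ≤ ∏ p ∈ supp b ∩ bad, (1 + w p) := by
    calc (1 : ℝ) = ∏ p ∈ supp b ∩ bad, (1 : ℝ) := by rw [Finset.prod_const_one]
      _ ≤ _ := Finset.prod_le_prod (fun p _ => zero_le_one) fun p _ => by linarith [hw p]
  have h5 : 0 ≤ ∏ p ∈ supp b ∪ bad, (1 + w p) :=
    Finset.prod_nonneg fun p _ => by linarith [hw p]
  nlinarith

theorem sum_energy {w : ι → ℝ} (hw : ∀ p, 0 ≤ w p) {γ : Finset ι → ℝ} (hγ : ∀ S, 0 ≤ γ S)
    (hanti : ∀ S S', S ⊆ S' → γ S' ≤ γ S) :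
    ∑ S : Finset ι, γ S ^ 2 * (ws w S * ∏ p ∈ S, (1 + w p)) ≤
      (∏ p, (1 + w p ^ 2)) * B1 w γ := by
  have h1 : ∀ S : Finset ι, γ S ^ 2 * (ws w S * ∏ p ∈ S, (1 + w p)) =
      ∑ S' ∈ S.powerset, γ S ^ 2 * (ws w S * ws w S') := by
    intro S
    rw [Finset.prod_one_add, Finset.mul_sum, Finset.mul_sum]
    rfl
  simp only [h1]
  rw [Finset.sum_comm' (s' := fun S' => univ.filter (fun S => S' ⊆ S)) (t' := univ) (by
    intro S S'
    simp)]
  have h2 : ∀ S' : Finset ι, ∑ S ∈ univ.filter (fun S => S' ⊆ S), γ S ^ 2 * (ws w S * ws w S') ≤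
      (ws w S') ^ 2 * B1 w γ := by
    intro S'
    have h3 := Pool.Agent.Helper90.MT.superSum hw (G := fun S => γ S ^ 2)
      (fun S => sq_nonneg _)
      (fun S S' h => pow_le_pow_left₀ (hγ S') (hanti S S' h) 2) S'
    have h4 : ∑ S ∈ univ.filter (fun S => S' ⊆ S), γ S ^ 2 * (ws w S * ws w S') =
        ws w S' * ∑ S ∈ univ.filter (fun S => S' ⊆ S), γ S ^ 2 * ws w S := by
      rw [Finset.mul_sum]
      refine Finset.sum_congr rfl fun S _ => ?_
      ring
    rw [h4]
    calc ws w S' * ∑ S ∈ univ.filter (fun S => S' ⊆ S), γ S ^ 2 * ws w S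
        ≤ ws w S' * (ws w S' * B1 w γ) := mul_le_mul_of_nonneg_left h3 (ws_nonneg hw _)
      _ = _ := by ring
  refine (Finset.sum_le_sum fun S' _ => h2 S').trans ?_
  rw [← Finset.sum_mul]
  refine le_of_eq ?_
  congr 1
  rw [Finset.prod_one_add, Finset.powerset_univ]
  refine Finset.sum_congr rfl fun S _ => ?_
  unfold ws
  rw [Finset.prod_pow]

theorem yw_abs_le {t : ι → ℝ} {γ : Finset ι → ℝ} (h0 : ∀ S, 0 ≤ γ S) (h1 : ∀ S, γ S ≤ 1)
    (b : ι → Option κ) : |yw t γ b| ≤ 1 := by
  unfold yw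
  rw [abs_mul, abs_pow, abs_neg, abs_one, one_pow, one_mul]
  by_cases h : T t (supp b) ≤ 1
  · rw [if_pos h, abs_of_nonneg (Finset.prod_nonneg fun i _ => h0 _)]
    exact Finset.prod_le_one (fun i _ => h0 _) fun i _ => h1 _
  · rw [if_neg h, abs_zero]
    exact zero_le_one

theorem yw_sq_le {t : ι → ℝ} {γ : Finset ι → ℝ} (b : ι → Option κ) :
    yw t γ b ^ 2 ≤ ∏ i, γ (cls b i) ^ 2 := by
  unfold yw
  rw [mul_pow, ← pow_mul, mul_comm (supp b).card 2, pow_mul, neg_one_sq, one_pow, one_mul]
  by_cases h : T t (supp b) ≤ 1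
  · rw [if_pos h, Finset.prod_pow]
  · rw [if_neg h]
    rw [zero_pow two_ne_zero]
    exact Finset.prod_nonneg fun i _ => sq_nonneg _

/-- The majorant. -/
noncomputable def yst (w t : ι → ℝ) (γ : Finset ι → ℝ) (bad : Finset ι)
    (c : ι → Option (Option κ)) : ℝ :=
  (-1) ^ (sstar c).card * (if T t (sstar c) ≤ 1 ∧ Disjoint (sstar c) bad then 1 else 0) *
    (yw t γ (spart c) / VV w t bad (spart c))

theorem yst_smk (w t : ι → ℝ) (γ : Finset ι → ℝ) (bad : Finset ι) {b : ι → Option κ}
    {S : Finset ι} (h : Disjoint S (supp b)) :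
    yst w t γ bad (smk b S) = (-1) ^ S.card * (if T t S ≤ 1 ∧ Disjoint S bad then 1 else 0) *
      (yw t γ b / VV w t bad b) := by
  unfold yst
  rw [sstar_smk, spart_smk h]

theorem lam_yst {w t : ι → ℝ} (hw : ∀ p, 0 ≤ w p) (γ : Finset ι → ℝ) (bad : Finset ι)
    (c : ι → Option κ) :
    lam w (yst w t γ bad) (fun p => (c p).map some) = lam w (yw t γ) c := by
  unfold lam
  rw [sum_star]
  refine Finset.sum_congr rfl fun b _ => ?_
  have hV : VV w t bad b ≠ 0 := (lt_of_lt_of_le one_pos (one_le_VV hw bad b)).ne'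
  have h1 : ∀ S ∈ univ.filter (fun S => Disjoint S (supp b)),
      (∏ p, inv (w p) ((c p).map some) (smk b S p)) * yst w t γ bad (smk b S) =
        (∏ p, inv (w p) (c p) (b p)) * (yw t γ b / VV w t bad b) *
          (if T t S ≤ 1 ∧ Disjoint S bad then ws w S else 0) := by
    intro S hS
    have hS' : Disjoint S (supp b) := (Finset.mem_filter.1 hS).2
    rw [prod_inv w c b hS', yst_smk w t γ bad hS']
    have h2 : ∏ p ∈ S, (- w p) = (-1) ^ S.card * ws w S := by
      unfold ws
      rw [← Finset.prod_const, ← Finset.prod_mul_distrib]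
      refine Finset.prod_congr rfl fun p _ => ?_
      ring
    rw [h2]
    have h3 : ((-1 : ℝ) ^ S.card) * (-1) ^ S.card = 1 := by
      rw [← mul_pow]
      norm_num
    by_cases h : T t S ≤ 1 ∧ Disjoint S bad
    · rw [if_pos h, if_pos h]
      linear_combination (ws w S * (∏ p, inv (w p) (c p) (b p)) *
        (yw t γ b / VV w t bad b)) * h3
    · rw [if_neg h, if_neg h]
      ring
  rw [Finset.sum_congr rfl h1, ← Finset.mul_sum, ← Finset.sum_filter]
  have h4 : ∑ S ∈ (univ.filter (fun S => Disjoint S (supp b))).filter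
      (fun S => T t S ≤ 1 ∧ Disjoint S bad), ws w S = VV w t bad b := rfl
  rw [h4, mul_assoc, div_mul_cancel₀ _ hV]

theorem energy_yst {w t : ι → ℝ} (hw : ∀ p, 0 ≤ w p) (γ : Finset ι → ℝ) (bad : Finset ι) :
    ∑ c : ι → Option (Option κ), ws w (supp c) * yst w t γ bad c ^ 2 =
      ∑ b : ι → Option κ, ws w (supp b) * yw t γ b ^ 2 / VV w t bad b := by
  rw [sum_star]
  refine Finset.sum_congr rfl fun b _ => ?_
  have hV : VV w t bad b ≠ 0 := (lt_of_lt_of_le one_pos (one_le_VV hw bad b)).ne'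
  have h1 : ∀ S ∈ univ.filter (fun S => Disjoint S (supp b)),
      ws w (supp (smk b S)) * yst w t γ bad (smk b S) ^ 2 =
        ws w (supp b) * (yw t γ b / VV w t bad b) ^ 2 *
          (if T t S ≤ 1 ∧ Disjoint S bad then ws w S else 0) := by
    intro S hS
    have hS' : Disjoint S (supp b) := (Finset.mem_filter.1 hS).2
    rw [supp_smk, yst_smk w t γ bad hS']
    have h2 : ws w (S ∪ supp b) = ws w S * ws w (supp b) := Finset.prod_union hS'
    rw [h2, mul_pow, mul_pow]
    have h3 : ((-1 : ℝ) ^ S.card) ^ 2 = 1 := by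
      rw [← pow_mul, mul_comm, pow_mul]
      norm_num
    rw [h3]
    by_cases h : T t S ≤ 1 ∧ Disjoint S bad
    · rw [if_pos h, if_pos h]
      ring
    · rw [if_neg h, if_neg h]
      ring
  rw [Finset.sum_congr rfl h1, ← Finset.mul_sum, ← Finset.sum_filter]
  have h4 : ∑ S ∈ (univ.filter (fun S => Disjoint S (supp b))).filter
      (fun S => T t S ≤ 1 ∧ Disjoint S bad), ws w S = VV w t bad b := rfl
  rw [h4]
  field_simp

end Sums

theorem starMajorant (hT : TupleSum) : StarMajorant := by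
  intro ι κ _ _ _ _ w t γ τ η hG bad
  refine ⟨yst w t γ bad, fun c => lam_yst hG.w_nonneg γ bad c, fun c hc => ?_, fun c => ?_, ?_⟩
  · -- the support
    unfold yst at hc
    have h1 : T t (sstar c) ≤ 1 ∧ Disjoint (sstar c) bad := by
      by_contra h
      rw [if_neg h] at hc
      simp at hc
    have h2 : T t (supp (spart c)) ≤ 1 := by
      by_contra h
      unfold yw at hc
      rw [if_neg h] at hc
      simp at hc
    constructor
    · have h3 : supp c = sstar c ∪ supp (spart c) := by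
        conv_lhs => rw [← smk_self c]
        rw [supp_smk]
      have h4 : T t (supp c) = T t (sstar c) + T t (supp (spart c)) := by
        rw [h3]
        exact Finset.sum_union (disj_self c)
      rw [h4]
      linarith [h1.1]
    · intro p hp hcp
      refine Finset.disjoint_right.1 h1.2 hp ?_
      simp [sstar, hcp]
  · -- the bound
    unfold yst
    rw [abs_mul, abs_mul, abs_pow, abs_neg, abs_one, one_pow, one_mul, abs_div]
    have h1 := one_le_VV hG.w_nonneg (t := t) bad (spart c)
    have h2 := yw_abs_le (t := t) hG.g_nonneg hG.g_le (spart c)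
    have h3 : |yw t γ (spart c)| / |VV w t bad (spart c)| ≤ 1 := by
      rw [abs_of_nonneg (le_trans zero_le_one h1)]
      rw [div_le_one (lt_of_lt_of_le one_pos h1)]
      exact h2.trans h1
    by_cases h : T t (sstar c) ≤ 1 ∧ Disjoint (sstar c) bad
    · rw [if_pos h, abs_one, one_mul]
      exact h3
    · rw [if_neg h, abs_zero, zero_mul]
      exact zero_le_one
  · -- the energy
    rw [energy_yst hG.w_nonneg]
    have hbad : 0 ≤ ∏ p ∈ bad, (1 + w p) :=
      Finset.prod_nonneg fun p _ => by linarith [hG.w_nonneg p]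
    have h1 : (∑ b : ι → Option κ, ws w (supp b) * yw t γ b ^ 2 / VV w t bad b) * V0 w t ≤
        (∑ b : ι → Option κ, ∏ i, (γ (cls b i) ^ 2 *
          (ws w (cls b i) * ∏ p ∈ cls b i, (1 + w p)))) * ∏ p ∈ bad, (1 + w p) := by
      rw [Finset.sum_mul, Finset.sum_mul]
      refine Finset.sum_le_sum fun b _ => ?_
      have hV := lt_of_lt_of_le one_pos (one_le_VV hG.w_nonneg (t := t) bad b)
      have h2 := V0_le hG.w_nonneg hG.t_nonneg bad b
      have h3 : 0 ≤ ws w (supp b) * yw t γ b ^ 2 / VV w t bad b :=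
        div_nonneg (mul_nonneg (ws_nonneg hG.w_nonneg _) (sq_nonneg _)) hV.le
      have h4 : 0 ≤ ws w (supp b) * ∏ p ∈ supp b, (1 + w p) :=
        mul_nonneg (ws_nonneg hG.w_nonneg _)
          (Finset.prod_nonneg fun p _ => by linarith [hG.w_nonneg p])
      calc ws w (supp b) * yw t γ b ^ 2 / VV w t bad b * V0 w t
          ≤ ws w (supp b) * yw t γ b ^ 2 / VV w t bad b *
            ((∏ p ∈ supp b, (1 + w p)) * (∏ p ∈ bad, (1 + w p)) * VV w t bad b) :=
            mul_le_mul_of_nonneg_left h2 h3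
        _ = yw t γ b ^ 2 * (ws w (supp b) * ∏ p ∈ supp b, (1 + w p)) *
            ∏ p ∈ bad, (1 + w p) := by
            field_simp
        _ ≤ (∏ i, γ (cls b i) ^ 2) * (ws w (supp b) * ∏ p ∈ supp b, (1 + w p)) *
            ∏ p ∈ bad, (1 + w p) :=
            mul_le_mul_of_nonneg_right (mul_le_mul_of_nonneg_right (yw_sq_le b) h4) hbad
        _ = (∏ i, (γ (cls b i) ^ 2 * (ws w (cls b i) * ∏ p ∈ cls b i, (1 + w p)))) *
            ∏ p ∈ bad, (1 + w p) := by
            rw [ws_supp, Pool.Agent.Helper90.MT.prod_supp (fun p => 1 + w p),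
              Finset.prod_mul_distrib, Finset.prod_mul_distrib]
    refine h1.trans ?_
    refine mul_le_mul_of_nonneg_right ?_ hbad
    have h5 := hT ι κ (fun _ S => γ S ^ 2 * (ws w S * ∏ p ∈ S, (1 + w p)))
      (fun _ S => mul_nonneg (sq_nonneg _) (mul_nonneg (ws_nonneg hG.w_nonneg _)
        (Finset.prod_nonneg fun p _ => by linarith [hG.w_nonneg p])))
    refine h5.trans ?_
    rw [Finset.prod_const, Finset.card_univ]
    have h6 := sum_energy hG.w_nonneg hG.g_nonneg hG.g_anti
    have h7 : 0 ≤ ∑ S : Finset ι, γ S ^ 2 * (ws w S * ∏ p ∈ S, (1 + w p)) :=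
      Finset.sum_nonneg fun S _ => mul_nonneg (sq_nonneg _) (mul_nonneg (ws_nonneg hG.w_nonneg _)
        (Finset.prod_nonneg fun p _ => by linarith [hG.w_nonneg p]))
    have h8 : 0 ≤ B1 w γ :=
      Finset.sum_nonneg fun S _ => mul_nonneg (sq_nonneg _) (ws_nonneg hG.w_nonneg _)
    refine (pow_le_pow_left₀ h7 h6 _).trans ?_
    rw [mul_pow]
    refine mul_le_mul_of_nonneg_right ?_ (pow_nonneg h8 _)
    have h9 : ∏ p, (1 + w p ^ 2) ≤ Real.exp η :=
      (prod_one_add_le (fun p => w p ^ 2) (fun p => sq_nonneg _)).trans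
        (Real.exp_le_exp.2 hG.sq)
    have h10 : 0 ≤ ∏ p, (1 + w p ^ 2) := Finset.prod_nonneg fun p _ => by positivity
    refine (pow_le_pow_left₀ h10 h9 _).trans ?_
    rw [← Real.exp_nat_mul]
    have hη0 : 0 ≤ η := le_trans (Finset.sum_nonneg fun p _ => sq_nonneg _) hG.sq
    have h11 : (Fintype.card κ : ℝ) * η ≤ 1 / 1000 := by
      rcases Nat.eq_zero_or_pos (Fintype.card κ) with hK | hK
      · rw [hK]
        norm_num
      · have hK1 : (1 : ℝ) ≤ Fintype.card κ := by exact_mod_cast hK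
        have h12 := hG.eta
        nlinarith [mul_nonneg (sub_nonneg.2 hK1) (mul_nonneg (le_trans zero_le_one hK1) hη0)]
    have h13 := Pool.Agent.Helper90.MT.exp_le_two
      (mul_nonneg (Nat.cast_nonneg (Fintype.card κ)) hη0) (by linarith)
    linarith

end Pool.Agent.Helper12.MT
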